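import Pool.Agent.Lib.MP_33b3f9_ag.MG.G.Main

/-!
The orbit of a tuple without relations spans the `ℓ`-adic space of tuples.
-/

set_option autoImplicit false

namespace MG.F.G

open Matrix Module Filter M4 M4.F

theorem adic_num (d l q : ℕ) : ∃ n : ℕ, (d * (2 + Nat.log 2 (l ^ n))) ^ q < 2 ^ n := by
  have h1 := (tendsto_pow_const_div_const_pow_of_one_lt q (r := 2) one_lt_two).const_mul
    (((d * (2 + l)) ^ q : ℕ) : ℝ)
  rw [mul_zero] at h1
  obtain ⟨n, h2, h3⟩ := ((h1.eventually (gt_mem_nhds one_pos)).and (eventually_ge_atTop 1)).exists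
  refine ⟨n, lt_of_le_of_lt (b := (d * (2 + l)) ^ q * n ^ q) ?_ ?_⟩
  · rw [← mul_pow]
    refine Nat.pow_le_pow_left ?_ q
    have h4 : Nat.log 2 (l ^ n) ≤ l * n := by
      refine (Nat.log_mono_right (Nat.pow_le_pow_left (Nat.lt_two_pow_self (n := l)).le n)).trans ?_
      rw [← pow_mul, Nat.log_pow one_lt_two]
    rw [mul_assoc]
    exact Nat.mul_le_mul_left _ (by nlinarith)
  · rw [← mul_div_assoc, div_lt_one (by positivity)] at h2
    exact_mod_cast h2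

variable [Dim] [Bs] {K : IntermediateField ℚ ℂ} {τ : Mat} {r : Rep K}

theorem adic_int (h : AV τ K r) (hb : ∀ M : ℚ, M ≠ 0 → Full τ (M • col 1)) (l : ℕ)
    [Fact l.Prime] (U : Subgroup (ℂ ≃ₐ[K] ℂ)) (hU : U.FiniteIndex) (c : μ → ν → ℤ_[l])
    (j₀ : μ) (i₀ : ν) (h1 : c j₀ i₀ = 1)
    (hc : ∀ σ ∈ U, ∑ j, ∑ i, c j i *
      ((r l σ : Matrix ν ν ℤ_[l]) * Bs.v.map (Int.cast : ℤ → ℤ_[l])) i j = 0) : False := by
  obtain ⟨q, hq⟩ := core h hb
  obtain ⟨n, hn⟩ := adic_num U.index l q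
  have hp : l.Prime := Fact.out
  have hN : l ^ n ≠ 0 := pow_ne_zero _ hp.ne_zero
  have : NeZero (l ^ n) := ⟨hN⟩
  let f : (μ → ν → ℤ) →+ ZMod (l ^ n) :=
    { toFun := fun S => PadicInt.toZModPow n (∑ j, ∑ i, c j i * (S j i : ℤ_[l]))
      map_zero' := by simp
      map_add' := fun S T => by
        simp only [Pi.add_apply, Int.cast_add, mul_add, Finset.sum_add_distrib, map_add] }
  have hf : ∀ S, f S = PadicInt.toZModPow n (∑ j, ∑ i, c j i * (S j i : ℤ_[l])) := fun _ => rfl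
  have hs : Function.Surjective f := fun x => by
    obtain ⟨k, rfl⟩ := ZMod.intCast_surjective x
    refine ⟨Pi.single j₀ (Pi.single i₀ k), ?_⟩
    rw [hf, Finset.sum_eq_single j₀ (fun b _ hb => by simp [hb]) (by simp),
      Finset.sum_eq_single i₀ (fun b _ hb => by simp [hb]) (by simp), h1]
    simp
  have hle : (AA r U (l ^ n)).map colZ ≤ f.ker := by
    rw [AddSubgroup.map_le_iff_le_comap]
    refine (AddSubgroup.closure_le _).2 fun R ⟨σ, hσ, hR⟩ => ?_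
    change f (colZ R) = 0
    rw [hf, ← RingHom.mem_ker, PadicInt.ker_toZModPow, Ideal.mem_span_singleton,
      ← dvd_neg, ← zero_sub, ← hc σ hσ, ← Finset.sum_sub_distrib]
    refine Finset.dvd_sum fun j _ => ?_
    rw [← Finset.sum_sub_distrib]
    refine Finset.dvd_sum fun i _ => ?_
    rw [← mul_sub]
    refine Dvd.dvd.mul_left ?_ _
    change _ ∣ _ - (((R * Bs.v) i j : ℤ) : ℤ_[l])
    rw [Matrix.mul_apply, Matrix.mul_apply, Int.cast_sum, ← Finset.sum_sub_distrib]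
    refine Finset.dvd_sum fun k _ => ?_
    rw [Int.cast_mul, map_apply, ← sub_mul]
    have := hR l i k
    rw [Nat.cast_pow] at this
    exact this.mul_right _
  have h2 := AZ_finite (r := r) (U := U) hN
  have h3 : f.ker.index = l ^ n := by
    rw [AddSubgroup.index_ker, AddMonoidHom.range_eq_top.2 hs, AddSubgroup.card_top, Nat.card_zmod]
  have h4 := Nat.le_of_dvd (Nat.pos_of_ne_zero AddSubgroup.index_ne_zero_of_finite)
    (AddSubgroup.index_dvd_of_le hle)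
  rw [h3] at h4
  exact absurd ((Nat.pow_le_pow_left hp.two_le n).trans (h4.trans (hq _ hN U hU))) (not_le.2 hn)

theorem adic (h : AV τ K r) (hb : ∀ M : ℚ, M ≠ 0 → Full τ (M • col 1)) (l : ℕ)
    [Fact l.Prime] (U : Subgroup (ℂ ≃ₐ[K] ℂ)) (hU : U.FiniteIndex) (c : μ → ν → ℚ_[l])
    (hc : ∀ σ ∈ U, ∑ j, ∑ i, c j i * (rq r l σ * Bs.v.map (Int.cast : ℤ → ℚ_[l])) i j = 0) :
    c = 0 := by
  by_contra h0
  obtain ⟨j₁, h1⟩ := Function.ne_iff.1 h0
  obtain ⟨i₁, h1⟩ := Function.ne_iff.1 h1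
  obtain ⟨⟨j₀, i₀⟩, -, hm⟩ := Finset.exists_max_image (Finset.univ : Finset (μ × ν))
    (fun p => ‖c p.1 p.2‖) ⟨(j₁, i₁), Finset.mem_univ _⟩
  have h2 : 0 < ‖c j₀ i₀‖ := (norm_pos_iff.2 h1).trans_le (hm (j₁, i₁) (Finset.mem_univ _))
  have h3 : c j₀ i₀ ≠ 0 := norm_pos_iff.1 h2
  refine adic_int h hb l U hU (fun j i => ⟨c j i / c j₀ i₀, by
    rw [norm_div, div_le_one h2]
    exact hm (j, i) (Finset.mem_univ _)⟩) j₀ i₀ (Subtype.ext (div_self h3)) fun σ hσ => ?_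
  refine Subtype.val_injective (p := fun x : ℚ_[l] => ‖x‖ ≤ 1) ?_
  have h4 := congrArg (· / c j₀ i₀) (hc σ hσ)
  simp only [zero_div, Finset.sum_div] at h4
  refine Eq.trans ?_ h4
  change PadicInt.Coe.ringHom _ = _
  rw [map_sum]
  refine Finset.sum_congr rfl fun j _ => ?_
  rw [map_sum]
  refine Finset.sum_congr rfl fun i _ => ?_
  rw [map_mul, mul_div_right_comm]
  congr 1
  rw [Matrix.mul_apply, Matrix.mul_apply, map_sum]
  refine Finset.sum_congr rfl fun k _ => ?_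
  rw [map_mul, map_apply, map_apply, map_intCast]
  rfl

end MG.F.G
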