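import Pool.Agent.Lib.MP_33b3f9_ag.MG.G.Defs

/-!
A basis over the endomorphism algebra of a simple abelian variety.
-/

set_option autoImplicit false

noncomputable section

namespace MG.F.G

open Matrix Module M4 M4.F

theorem bas_free {B V : Type} [Ring B] [Nontrivial B] (hB : ∀ a : B, IsUnit a ∨ a = 0)
    [AddCommGroup V] [Module B V] [Module.Finite B V] : ∃ n : ℕ, Nonempty (Basis (Fin n) B V) := by
  let := DivisionRing.ofIsUnitOrEqZero hB
  exact ⟨_, ⟨Module.finBasis B V⟩⟩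

variable [Dim] {τ : Mat}

/-- The endomorphism algebra as a ring of matrices. -/
def EB (τ : Mat) : Subring (Matrix ν ν ℚ) :=
  (Subring.centralizer {cst τ}).comap (Rat.castHom ℝ).mapMatrix

theorem mem_EB {d : Matrix ν ν ℚ} : d ∈ EB τ ↔ EndQ τ d := by
  rw [EB, Subring.mem_comap, Subring.mem_centralizer_iff]
  simp only [Set.mem_singleton_iff, forall_eq]
  exact eq_comm

theorem smul_EB (q : ℚ) {d : Matrix ν ν ℚ} (h : EndQ τ d) : EndQ τ (q • d) := by
  have e : (q • d).map (Rat.cast : ℚ → ℝ) = (q : ℝ) • d.map (Rat.cast : ℚ → ℝ) := by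
    ext i j
    simp
  unfold EndQ at h ⊢
  rw [e, Matrix.smul_mul, Matrix.mul_smul, h]

theorem exists_basis (hS : ∀ d, EndQ τ d → d ≠ 0 → IsUnit d) : ∃ (n : ℕ) (b : Fin n → ν → ℚ),
    (∀ d : Fin n → Matrix ν ν ℚ, (∀ j, EndQ τ (d j)) → ∑ j, d j *ᵥ b j = 0 → ∀ j, d j = 0) ∧
    ∀ x : ν → ℚ, ∃ d : Fin n → Matrix ν ν ℚ, (∀ j, EndQ τ (d j)) ∧ ∑ j, d j *ᵥ b j = x := by
  let : Module (EB τ) (ν → ℚ) := Module.compHom _
    ((Matrix.toLinAlgEquiv' : Matrix ν ν ℚ ≃ₐ[ℚ] Module.End ℚ (ν → ℚ)).toRingEquiv.toRingHom.comp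
      (EB τ).subtype)
  have hs : ∀ (d : EB τ) (x : ν → ℚ), d • x = (d : Matrix ν ν ℚ) *ᵥ x := fun _ _ => rfl
  have : Module.Finite (EB τ) (ν → ℚ) := by
    refine ⟨⟨Finset.univ.image fun i => Pi.single i 1, eq_top_iff.2 fun x _ => ?_⟩⟩
    rw [pi_eq_sum_univ' x]
    refine Submodule.sum_mem _ fun i _ => ?_
    have h1 := Submodule.smul_mem (Submodule.span (EB τ)
      ((Finset.univ.image fun i => Pi.single i 1 : Finset (ν → ℚ)) : Set (ν → ℚ)))
      (⟨x i • 1, mem_EB.2 (smul_EB _ (mem_EB.1 (one_mem _)))⟩ : EB τ)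
      (Submodule.subset_span (Finset.mem_coe.2 (Finset.mem_image_of_mem _ (Finset.mem_univ i))))
    rwa [hs, smul_mulVec, one_mulVec] at h1
  obtain ⟨n, ⟨b⟩⟩ := bas_free (B := EB τ) (V := ν → ℚ) fun a => by
    by_cases h0 : a = 0
    · exact Or.inr h0
    obtain ⟨u, hu⟩ := hS a.1 (mem_EB.1 a.2) fun e => h0 (Subtype.ext e)
    have h1 : (u⁻¹ : (Matrix ν ν ℚ)ˣ).1 ∈ EB τ := by
      have h2 : Commute ((Units.map (Rat.castHom ℝ).mapMatrix.toMonoidHom u).1) (cst τ) := by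
        have := mem_EB.1 a.2
        rw [← hu] at this
        exact this
      exact mem_EB.2 h2.units_inv_left
    exact Or.inl ⟨⟨a, ⟨_, h1⟩, Subtype.ext (by rw [Subring.coe_mul, ← hu]; exact u.mul_inv),
      Subtype.ext (by rw [Subring.coe_mul, ← hu]; exact u.inv_mul)⟩, rfl⟩
  refine ⟨n, b, fun d hd h0 j => ?_, fun x => ⟨fun j => (b.repr x j).1,
    fun j => mem_EB.1 (b.repr x j).2, b.sum_repr x⟩⟩
  exact congrArg Subtype.val (Fintype.linearIndependent_iff.1 b.linearIndependent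
    (fun j => ⟨d j, mem_EB.2 (hd j)⟩) h0 j)

theorem exists_bs (hS : ∀ d, EndQ τ d → d ≠ 0 → IsUnit d) : ∃ _ : Bs,
    (∀ M : ℚ, M ≠ 0 → Full τ (M • col 1)) ∧
    ∀ x : ν → ℚ, ∃ d : μ → Matrix ν ν ℚ, (∀ j, EndQ τ (d j)) ∧ ∑ j, d j *ᵥ col 1 j = x := by
  obtain ⟨n, b, h1, h2⟩ := exists_basis hS
  obtain ⟨V, c, hc, hV⟩ : ∃ (V : Matrix ν (Fin n) ℤ) (c : ℚ), c ≠ 0 ∧
      V.map (Int.castRingHom ℚ) = c • (Matrix.of b)ᵀ :=
    ⟨_, _, Nat.cast_ne_zero.2 (Matrix.den_ne_zero _), num_cast _⟩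
  have hb : LinearIndependent ℚ b := Fintype.linearIndependent_iff.2 fun q hq j => by
    have h3 := h1 (fun j => q j • 1) (fun j => smul_EB _ (mem_EB.1 (one_mem _)))
      (by simpa only [smul_mulVec, one_mulVec] using hq) j
    exact (smul_eq_zero.1 h3).resolve_right one_ne_zero
  have hB : LinearIndependent ℚ (V.map (Int.castRingHom ℚ)).col := by
    rw [hV]
    exact hb.units_smul fun _ => Units.mk0 c hc
  obtain ⟨g, hg⟩ := (toLin' (V.map (Int.castRingHom ℚ))).exists_leftInverse_of_injective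
    (LinearMap.ker_eq_bot.2 (mulVec_injective_iff.2 hB))
  have h3 : (LinearMap.toMatrix' g).num * V = ((LinearMap.toMatrix' g).den : ℤ) • 1 := by
    refine Matrix.map_injective (f := Int.castRingHom ℚ) Int.cast_injective ?_
    have h2 := congrArg LinearMap.toMatrix' hg
    rw [LinearMap.toMatrix'_comp, LinearMap.toMatrix'_toLin', LinearMap.toMatrix'_id] at h2
    change Matrix.map _ _ = Matrix.map _ _
    rw [Matrix.map_mul, num_cast, Matrix.smul_mul, h2]
    ext i j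
    simp only [map_apply, Matrix.smul_apply, Matrix.one_apply, smul_eq_mul, mul_ite, mul_one,
      mul_zero, apply_ite (Int.castRingHom ℚ), eq_intCast, Int.cast_zero, Int.cast_natCast]
  let β : Bs := ⟨Fin n, V, _, _, (LinearMap.toMatrix' g).den_ne_zero, h3⟩
  have hcol : ∀ j : Fin n, col 1 j = c • b j := fun j => funext fun i => by
    change (((1 : MZ) * V) i j : ℚ) = _
    rw [Matrix.one_mul]
    exact congrFun (congrFun hV i) j
  refine ⟨β, fun M hM P hP h i j => ?_, fun x => ?_⟩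
  · have h4 := h1 (fun j => (M * c) • (P i j - if i = j then 1 else 0)) (fun j => smul_EB _
      (mem_EB.1 (sub_mem (mem_EB.2 (hP i j)) (by split_ifs; exacts [one_mem _, zero_mem _]))))
      (by
        have h5 := h i
        simp only [Pi.smul_apply, hcol, smul_smul, mulVec_smul] at h5
        simp only [smul_mulVec, sub_mulVec, smul_sub, Finset.sum_sub_distrib]
        rw [sub_eq_zero]
        refine h5.trans (Eq.symm ((Finset.sum_eq_single (ι := Fin n) i
          (fun k _ hk => by rw [if_neg hk.symm, zero_mulVec, smul_zero])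
          fun hi => absurd (Finset.mem_univ _) hi).trans ?_))
        rw [if_pos rfl, one_mulVec]) j
    exact sub_eq_zero.1 ((smul_eq_zero.1 h4).resolve_left (mul_ne_zero hM hc))
  · obtain ⟨d, hd, e⟩ := h2 x
    refine ⟨fun j => c⁻¹ • d j, fun j => smul_EB _ (hd j), Eq.trans ?_ e⟩
    refine Finset.sum_congr rfl fun j _ => ?_
    rw [hcol, smul_mulVec, mulVec_smul, inv_smul_smul₀ hc]

end MG.F.G
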