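import Pool.Agent.Lib.MP_33b3f9_ag.MG.F.Main

/-!
The theorem of Faltings for a basis of any length: definitions.
-/

set_option autoImplicit false

noncomputable section

namespace MG.F.G

open Matrix Filter M4 M4.F

variable [Dim] {K : IntermediateField ℚ ℂ}

/-- Finitely many vectors, with a left inverse up to the factor `c`. -/
class Bs where
  /-- the index set -/
  ix : Type
  /-- finite -/
  [fin : Fintype ix]
  /-- decidable -/
  [dec : DecidableEq ix]
  /-- the vectors -/
  v : Matrix ν ix ℤ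
  /-- the dual vectors -/
  w : Matrix ix ν ℤ
  /-- the denominator -/
  c : ℕ
  c0 : c ≠ 0
  wv : w * v = (c : ℤ) • 1

variable [Bs]

/-- Index set of the vectors. -/
abbrev μ : Type := Bs.ix

instance : Fintype μ := Bs.fin

instance : DecidableEq μ := Bs.dec

/-- The rank of the lattice of integral tuples. -/
def rq4 : ℕ := Module.finrank ℤ (μ → ν → ℤ)

/-- The images of the vectors. -/
def colZ : MZ →+ μ → ν → ℤ where
  toFun R := fun i j => (R * Bs.v) j i
  map_zero' := by funext i j; rw [Matrix.zero_mul]; rfl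
  map_add' := fun R S => by funext i j; rw [Matrix.add_mul]; rfl

/-- The images of the vectors, as a rational tuple. -/
def col : MZ →+ VQ μ where
  toFun R := zq (colZ R)
  map_zero' := by funext i j; simp [zq]
  map_add' := fun R S => by funext i j; simp [zq]

theorem col_apply (R : MZ) : col R = zq (colZ R) := rfl

theorem colZ_w (n : μ → ν → ℤ) : colZ ((Matrix.of n)ᵀ * Bs.w) = (Bs.c : ℤ) • n := by
  funext i j
  change ((Matrix.of n)ᵀ * Bs.w * Bs.v) j i = _
  rw [Matrix.mul_assoc, Bs.wv, Matrix.mul_smul, Matrix.mul_one]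
  rfl

theorem col_w (n : μ → ν → ℤ) : col ((Matrix.of n)ᵀ * Bs.w) = (Bs.c : ℚ) • zq n := by
  funext i j
  simp [col_apply, colZ_w, zq]

/-- The same as a lattice of tuples. -/
def AL (r : Rep K) (U : Subgroup (ℂ ≃ₐ[K] ℂ)) (N : ℕ) : AddSubgroup (VQ μ) :=
  (AA r U N).map col

theorem mv_col (R S : MZ) : mv R (col S) = col (R * S) := by
  rw [col_apply, col_apply, mv_zq]
  congr 1
  funext i j
  change _ = (R * S * Bs.v) j i
  rw [Matrix.mul_assoc]
  rfl

/-- The span of the level one sections with twists in the dual of `Λ`. -/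
def GS (τ : Mat) (t : ℂ) (Λ : AddSubgroup (VQ μ)) : Submodule ℂ (VR μ → ℂ) :=
  Submodule.span ℂ ((fun c : VQ μ => Tw τ t (cr c)) '' (dual Λ : Set (VQ μ)))

/-- The dimension of the space of the sections that vanish on `S`. -/
def kk (τ : Mat) (t : ℂ) (Λ : AddSubgroup (VQ μ)) (S : Set (VQ μ)) : ℕ :=
  Module.finrank ℂ ↥(GS τ t Λ ⊓ van (cr '' S))

/-- The columns of `R / n`. -/
def qq (n : ℕ) : MZ →+ VQ μ where
  toFun R := (n : ℚ)⁻¹ • col R
  map_zero' := by rw [map_zero, smul_zero]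
  map_add' := fun R S => by rw [map_add, smul_add]

theorem qq_apply (n : ℕ) (R : MZ) : qq n R = (n : ℚ)⁻¹ • col R := rfl

/-- The lattice generated by the orbit of `1 / n`. -/
def LL (r : Rep K) (U : Subgroup (ℂ ≃ₐ[K] ℂ)) (N n : ℕ) : AddSubgroup (VQ μ) :=
  (AA r U (n * N)).map (qq n)

/-- The union of `S` and `S + y`. -/
def ext (S : Set (VQ μ)) (y : VQ μ) : Set (VQ μ) := {z | z ∈ S ∨ ∃ x ∈ S, z = x + y}

/-- Stable unions of cosets. -/
structure Good (r : Rep K) (U : Subgroup (ℂ ≃ₐ[K] ℂ)) (N n : ℕ) (S : Set (VQ μ)) :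
    Prop where
  inv : ∀ x ∈ S, ∀ l ∈ LL r U N n, x + l ∈ S
  stab : ∀ σ ∈ U, ∀ R, Cong r σ (2 * n * N) R → ∀ x ∈ S, mv R x ∈ S

/-- A minor of the matrix of values. -/
def minor (τ : Mat) (t : ℂ) {p : ℕ} (c x : Fin p → VQ μ) : ℂ :=
  (Matrix.of fun i j => Tw τ t (cr (c j)) (cr (x i))).det

end MG.F.G
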