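import Pool.Agent.Lib.MP_33b3f9_ag.MG.G.Defs

/-!
The dual lattice.
-/

set_option autoImplicit false

noncomputable section

namespace MG.F.G

open Matrix Filter M4 M4.F

variable [Dim] [Bs] {K : IntermediateField ℚ ℂ} {τ : Mat} {r : Rep K}
  {U : Subgroup (ℂ ≃ₐ[K] ℂ)} {N : ℕ}

theorem zl_le_AL : zl μ (Bs.c * N) ≤ AL r U N := by
  intro x hx
  obtain ⟨n, rfl⟩ := mem_zl.1 hx
  refine ⟨_, dual_smul_mem ((Matrix.of n)ᵀ * Bs.w), ?_⟩
  rw [map_zsmul, col_w, ← Int.cast_smul_eq_zsmul ℚ, smul_smul, Int.cast_natCast, Nat.cast_mul,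
    mul_comm]

theorem AL_le : AL r U N ≤ zl μ 1 := by
  rintro _ ⟨S, -, rfl⟩
  exact mem_zl_one.2 ⟨_, rfl⟩

/-- The pairing with integral tuples. -/
def dual_hom (c : VQ μ) : (μ → ν → ℤ) →+ ℚ where
  toFun S := EK c (zq S)
  map_zero' := by simp [EK, zq, Kz.Ef]
  map_add' := fun R S => by
    rw [show zq (R + S) = zq R + zq S by funext i j; simp [zq], EK, EK, EK,
      ← Finset.sum_add_distrib]
    exact Finset.sum_congr rfl fun i _ => Kz.Ef_add_right _ _ _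

theorem dual_apply (c : VQ μ) (S : μ → ν → ℤ) : dual_hom c S = ∑ i, Kz.Ef (c i) (zq S i) := rfl

theorem dual_int (n S : μ → ν → ℤ) : ∃ k : ℤ, dual_hom (zq n) S = k :=
  ⟨EK n S, by
    rw [EK, Int.cast_sum, dual_apply]
    exact Finset.sum_congr rfl fun i _ => Kz.Ef_map (Int.castRingHom ℚ) _ _⟩

theorem dual_left (q : ℚ) (c : VQ μ) (S : μ → ν → ℤ) : dual_hom (q • c) S = q * dual_hom c S := by
  rw [dual_apply, dual_apply, Finset.mul_sum]
  exact Finset.sum_congr rfl fun i _ => Kz.Ef_smul_left _ _ _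

theorem dual_sub (c c' : VQ μ) (S : μ → ν → ℤ) :
    dual_hom (c - c') S = dual_hom c S - dual_hom c' S := by
  rw [dual_apply, dual_apply, dual_apply, ← Finset.sum_sub_distrib]
  exact Finset.sum_congr rfl fun i _ => Kz.Ef_sub_left _ _ _

theorem dual_one (h : AV τ K r) (hN : N ≠ 0) {σ : ℂ ≃ₐ[K] ℂ} (hσ : σ ∈ U) {c : VQ μ}
    (hc : c ∈ dual (AL r U N)) {S : MZ} (hS : S ∈ AA r U N) :
    ∀ᶠ R in lf r σ, ∃ k : ℤ, (k : ℚ) = dual_hom (mv R c) (colZ S) := by
  obtain ⟨M, n, hM, hn⟩ := exists_den c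
  have h0 := mul_ne_zero hM hN
  obtain ⟨R', hR'⟩ := Kz.exists_cong r σ⁻¹ h0
  obtain ⟨k, hk⟩ := hc _ ⟨_, mul_mem_AA (U.inv_mem hσ) (cong_of_dvd (dvd_mul_left N M) hR') hS, rfl⟩
  filter_upwards [ee_gal h σ 1 c (col (R' * S)), ev_cong r σ h0] with R h1 h2
  rw [one_mul, one_mul, hk, Rat.cast_intCast, ee_int, map_one, mv_col] at h1
  obtain ⟨a, ha⟩ := dual_ee h1.symm
  have h3 := cong_mul h2 hR'
  rw [mul_inv_cancel] at h3
  obtain ⟨T, hT⟩ := cong_sub h0 h3 (cong_one r _ 0)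
  obtain ⟨b, hb⟩ := dual_int (fun i => R *ᵥ n i) (colZ ((N : ℤ) • (T * S)))
  change dual_hom _ (colZ _) = _ at ha
  rw [← Matrix.mul_assoc, hT, smul_zero, add_zero, Matrix.add_mul, Matrix.one_mul, map_add, map_add,
    Matrix.smul_mul, Nat.cast_mul, mul_smul, map_zsmul, map_zsmul, zsmul_eq_mul, Int.cast_natCast,
    ← dual_left, ← mv_smul, hn, mv_zq, hb] at ha
  exact ⟨a - b, by rw [Int.cast_sub, ← ha, add_sub_cancel_right]⟩

theorem dual_stab (h : AV τ K r) (hN : N ≠ 0) : Stab r U (dual (AL r U N)) := by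
  intro σ hσ c hc
  obtain ⟨s, hs⟩ : (AA r U N).FG := (Submodule.fg_iff_addSubgroup_fg _).1
    (IsNoetherian.noetherian (AA r U N).toIntSubmodule)
  filter_upwards [(eventually_all_finset s).2 fun S hS =>
    dual_one h hN hσ hc (hs ▸ AddSubgroup.subset_closure hS)] with R hR
  rintro _ ⟨S, hS, rfl⟩
  have h1 : AA r U N ≤ (Int.castAddHom ℚ).range.comap ((dual_hom (mv R c)).comp colZ) :=
    hs ▸ (AddSubgroup.closure_le _).2 hR
  obtain ⟨k, hk⟩ := h1 hS
  exact ⟨k, hk.symm⟩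

theorem dual_char {A : AddSubgroup (μ → ν → ℤ)} (hN : N ≠ 0) (hA : ∀ S, (N : ℤ) • S ∈ A)
    (χ : AddChar ((μ → ν → ℤ) ⧸ A) ℂ) :
    ∃ c : VQ μ, ∀ S : μ → ν → ℤ, χ S = ee (dual_hom c S) := by
  have : NeZero N := ⟨hN⟩
  have h1 : ∀ (i : μ) (j : ν), ∃ q : ℚ,
      χ (Pi.single i (Pi.single j 1) : μ → ν → ℤ) = ee q := fun i j => by
    obtain ⟨k, -, hk⟩ := (Complex.isPrimitiveRoot_exp N hN).eq_pow_of_pow_eq_one
      (ξ := χ (Pi.single i (Pi.single j 1) : μ → ν → ℤ)) (by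
        rw [← AddChar.map_nsmul_eq_pow, ← QuotientAddGroup.mk_nsmul, ← natCast_zsmul,
          (QuotientAddGroup.eq_zero_iff _).2 (hA _), AddChar.map_zero_eq_one])
    refine ⟨k / N, ?_⟩
    rw [← hk, ← Complex.exp_nat_mul, ee]
    congr 1
    push_cast
    ring
  choose q hq using h1
  refine ⟨fun i => Sum.elim (fun a => q i (Sum.inr a)) fun a => -q i (Sum.inl a), fun S => ?_⟩
  have hadd : ∀ (c : VQ μ) (R S : μ → ν → ℤ), χ R = ee (dual_hom c R) → χ S = ee (dual_hom c S) →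
      χ (R + S : μ → ν → ℤ) = ee (dual_hom c (R + S)) := fun c R S h1 h2 => by
    rw [QuotientAddGroup.mk_add, AddChar.map_add_eq_mul, h1, h2, map_add, Rat.cast_add, ee_add]
  induction S using Pi.single_induction with
  | zero => simp
  | add R S h1 h2 => exact hadd _ R S h1 h2
  | single i y =>
    induction y using Pi.single_induction with
    | zero => simp
    | add R S h1 h2 =>
      rw [Pi.single_add]
      exact hadd _ _ _ h1 h2
    | single j x =>
      have e : dual_hom (fun i => Sum.elim (fun a => q i (Sum.inr a)) fun a => -q i (Sum.inl a))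
          (Pi.single i (Pi.single j 1)) = q i j := by
        rw [dual_apply, Finset.sum_eq_single i (fun b _ hb => by simp [Kz.Ef, zq, hb])
          (by simp)]
        cases j <;> simp [Kz.Ef, zq, Pi.single_apply]
      rw [← mul_one x, ← smul_eq_mul, Pi.single_smul', Pi.single_smul', map_zsmul, e,
        QuotientAddGroup.mk_zsmul, AddChar.map_zsmul_eq_zpow, hq, ee, ee, ← Complex.exp_int_mul,
        zsmul_eq_mul]
      congr 1
      push_cast
      ring

theorem smul_mem_AZ (S : μ → ν → ℤ) : ((Bs.c * N : ℕ) : ℤ) • S ∈ (AA r U N).map colZ :=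
  ⟨_, dual_smul_mem ((Matrix.of S)ᵀ * Bs.w), by
    rw [map_zsmul, colZ_w, smul_smul, Nat.cast_mul, mul_comm]⟩

theorem AZ_finite (hN : N ≠ 0) : Finite ((μ → ν → ℤ) ⧸ (AA r U N).map colZ) := by
  have : AddGroup.FG (μ → ν → ℤ) := Module.Finite.iff_addGroup_fg.1 inferInstance
  refine AddCommGroup.finite_of_fg_isAddTorsion _ fun x => ?_
  obtain ⟨S, rfl⟩ := QuotientAddGroup.mk_surjective x
  refine isOfFinAddOrder_iff_nsmul_eq_zero.2 ⟨_, Nat.pos_of_ne_zero (mul_ne_zero Bs.c0 hN), ?_⟩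
  rw [← QuotientAddGroup.mk_nsmul, ← natCast_zsmul]
  exact (QuotientAddGroup.eq_zero_iff _).2 (smul_mem_AZ _)

/-- Characters of the finite quotient group. -/
theorem dual_index (hN : N ≠ 0) : ∃ c : Fin ((AA r U N).map colZ).index → VQ μ,
    (∀ a, c a ∈ dual (AL r U N)) ∧ ∀ a a', c a - c a' ∈ zl μ 1 → a = a' := by
  have := AZ_finite (r := r) (U := U) hN
  have := Fintype.ofFinite ((μ → ν → ℤ) ⧸ (AA r U N).map colZ)
  have e : AddChar ((μ → ν → ℤ) ⧸ (AA r U N).map colZ) ℂ ≃ Fin ((AA r U N).map colZ).index :=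
    Finite.equivFinOfCardEq (by
      rw [AddSubgroup.index, Nat.card_eq_fintype_card, Nat.card_eq_fintype_card, AddChar.card_eq])
  choose c hc using dual_char (mul_ne_zero Bs.c0 hN) (smul_mem_AZ (r := r) (U := U) (N := N))
  refine ⟨fun a => c (e.symm a), ?_, fun a a' h => e.symm.injective ?_⟩
  · rintro a _ ⟨S, hS, rfl⟩
    refine dual_ee ((hc _ (colZ S)).symm.trans ?_)
    rw [(QuotientAddGroup.eq_zero_iff _).2 (AddSubgroup.mem_map_of_mem _ hS), AddChar.map_zero_eq_one]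
  · obtain ⟨n, hn⟩ := mem_zl_one.1 h
    refine AddChar.ext _ _ fun x => ?_
    obtain ⟨S, rfl⟩ := QuotientAddGroup.mk_surjective x
    obtain ⟨k, hk⟩ := dual_int n S
    rw [← hn, dual_sub, sub_eq_iff_eq_add] at hk
    rw [hc, hc, hk, Rat.cast_add, ee_add, Rat.cast_intCast, ee_int, one_mul]

end MG.F.G
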