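import Pool.Agent.Lib.MP_33b3f9_ag.MG.G.Adic
import Pool.Agent.Lib.MP_33b3f9_ag.MG.G.Bas
import Pool.Agent.Lib.MP_33b3f9_ag.IgStmt

/-!
The theorem of Faltings on endomorphisms for simple abelian varieties.
-/

set_option autoImplicit false

namespace MG.F.G

open Matrix M4 M4.F
open Pool.Agent.Lib.MP_33b3f9_ag (hodgeEnd)

variable [Dim] {K : IntermediateField ℚ ℂ} {τ : Mat} {r : Rep K}

theorem endTate (h : AV τ K r) (hS : ∀ d, EndQ τ d → d ≠ 0 → IsUnit d)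
    (U : Subgroup (ℂ ≃ₐ[K] ℂ)) (hU : U.FiniteIndex)
    (hc : ∀ d, EndQ τ d → ∀ σ ∈ U,
      d.map (Rat.cast : ℚ → ℚ_[2]) * rq r 2 σ = rq r 2 σ * d.map (Rat.cast : ℚ → ℚ_[2]))
    {C : Matrix ν ν ℚ_[2]} (hC : ∀ σ ∈ U, C * rq r 2 σ = rq r 2 σ * C) :
    C ∈ hodgeEnd (cst τ) := by
  obtain ⟨_, hb, hs⟩ := exists_bs hS
  choose d hd he using fun i : ν => hs (Pi.single i 1)
  obtain ⟨i₀⟩ : Nonempty ν := inferInstance
  obtain ⟨j₀⟩ : Nonempty μ := by
    by_contra h0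
    have := not_nonempty_iff.1 h0
    have h1 := congrFun (he i₀) i₀
    simp at h1
  obtain ⟨V, hV⟩ : ∃ V : Matrix ν μ ℚ_[2], V = Bs.v.map (Int.cast : ℤ → ℚ_[2]) := ⟨_, rfl⟩
  have he' : ∀ i k, ∑ j, ((d i j).map (Rat.cast : ℚ → ℚ_[2]) * V) k j =
      (Pi.single i 1 : ν → ℚ_[2]) k := fun i k => by
    have h1 := congrArg (Rat.cast : ℚ → ℚ_[2]) (congrFun (he i) k)
    rw [Finset.sum_apply, Rat.cast_sum] at h1
    refine Eq.trans (Finset.sum_congr rfl fun j _ => ?_) (h1.trans ?_)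
    · rw [Matrix.mul_apply, mulVec, dotProduct, Rat.cast_sum]
      refine Finset.sum_congr rfl fun a _ => ?_
      rw [Rat.cast_mul, hV]
      congr 1
      change _ = (((((1 : MZ) * Bs.v) a j : ℤ) : ℚ) : ℚ_[2])
      rw [Matrix.one_mul, Rat.cast_intCast]
      rfl
    · by_cases e : k = i <;> simp [e]
  obtain ⟨b, hb'⟩ : ∃ b : μ → Matrix ν ν ℚ_[2],
      b = fun j => ∑ i, (C * V) i j₀ • (d i j).map (Rat.cast : ℚ → ℚ_[2]) := ⟨_, rfl⟩
  have h1 : ∀ j, b j ∈ hodgeEnd (cst τ) := fun j => by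
    rw [hb']
    exact Submodule.sum_mem _ fun i _ =>
      Submodule.smul_mem _ _ (Submodule.subset_span ⟨d i j, hd i j, rfl⟩)
  have h2 : ∀ j, ∀ σ ∈ U, b j * rq r 2 σ = rq r 2 σ * b j := fun j σ hσ => by
    rw [hb', Finset.sum_mul, Finset.mul_sum]
    exact Finset.sum_congr rfl fun i _ => by
      rw [smul_mul_assoc, mul_smul_comm, hc _ (hd i j) σ hσ]
  have h3 : ∀ k, ∑ j, (b j * V) k j = (C * V) k j₀ := fun k => by
    simp only [hb', Matrix.sum_mul, Matrix.smul_mul, Matrix.sum_apply, Matrix.smul_apply,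
      smul_eq_mul]
    rw [Finset.sum_comm]
    simp only [← Finset.mul_sum, he']
    simp [Pi.single_apply]
  have h4 : ∀ a, (fun j => (if j = j₀ then C a else 0) - b j a) = 0 := fun a =>
    adic h hb 2 U hU _ fun σ hσ => by
      rw [← hV]
      simp only [Pi.sub_apply, sub_mul, Finset.sum_sub_distrib]
      rw [sub_eq_zero, Finset.sum_eq_single j₀ (fun j _ hj => by simp [hj]) (by simp), if_pos rfl]
      simp only [← Matrix.mul_apply, ← Matrix.mul_assoc, hC σ hσ, h2 _ σ hσ]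
      simp only [Matrix.mul_assoc, Matrix.mul_apply (M := rq r 2 σ)]
      rw [Finset.sum_comm]
      simp only [← Finset.mul_sum, h3]
  have h5 : C = b j₀ := Matrix.ext fun a k => by
    have := congrFun (congrFun (h4 a) j₀) k
    rw [if_pos rfl] at this
    exact sub_eq_zero.1 this
  rw [h5]
  exact h1 j₀

end MG.F.G
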