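import Pool.Agent.Lib.MP_33b3f9_ag.IgStmt
import Pool.Agent.Lib.MP_33b3f9_ag.IgNon
import Pool.Agent.Lib.MP_33b3f9_ag.M4.MxCyc

/-!
The hypotheses of the group theoretic theorem for a homomorphism, and the cyclotomic character of `Aut(ℂ / K)`.
-/

set_option autoImplicit false

noncomputable section

namespace MG.G

open Matrix Polynomial Pool.Agent.Lib.MP_33b3f9_ag Pool.Agent.M4.Mx

theorem cyc_inf (K : IntermediateField ℚ ℂ) [FiniteDimensional ℚ K] (χ : (ℂ ≃ₐ[K] ℂ) →* ℤ_[2]ˣ)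
    (hχ : ∀ (σ : ℂ ≃ₐ[K] ℂ) (n : ℕ) (z : ℂ), z ^ 2 ^ n = 1 →
      σ z = z ^ (PadicInt.toZModPow n (χ σ : ℤ_[2])).val)
    (U : Subgroup (ℂ ≃ₐ[K] ℂ)) (hU : U.FiniteIndex) : (χ '' U).Infinite := by
  intro hfin
  have := hfin.to_subtype
  obtain ⟨n, hn⟩ : ∃ n, n = Module.finrank ℚ K * Nat.card (((ℂ ≃ₐ[K] ℂ) ⧸ U) × (χ '' U)) :=
    ⟨_, rfl⟩
  have h0 : 0 < 2 ^ (n + 1) := by positivity
  have hζ := Complex.isPrimitiveRoot_exp _ h0.ne'
  generalize Complex.exp _ = z at hζ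
  have hi : IsIntegral K z := (hζ.isIntegral h0).tower_top
  let F : ((ℂ ≃ₐ[K] ℂ) ⧸ U) × (χ '' U) → ℂ := fun q =>
    q.1.out (z ^ (PadicInt.toZModPow (n + 1) (q.2.1 : ℤ_[2])).val)
  have h1 : (minpoly K z).rootSet ℂ ⊆ Set.range F := by
    intro y hy
    obtain ⟨σ, rfl⟩ := exists_aut K hi (aeval_eq_zero_of_mem_rootSet hy)
    obtain ⟨u, hu⟩ := QuotientGroup.mk_out_eq_mul U σ
    refine ⟨(σ, ⟨χ (u⁻¹ : U), _, (u⁻¹).2, rfl⟩), ?_⟩
    simp only [F]
    rw [← hχ _ (n + 1) z hζ.pow_eq_one, hu, ← AlgEquiv.mul_apply, mul_assoc, ← Subgroup.coe_mul,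
      mul_inv_cancel, Subgroup.coe_one, mul_one]
  have h2 := card_rootSet_eq_natDegree (K := ℂ) (minpoly.irreducible hi).separable
    (IsAlgClosed.splits _)
  have h3 := (Nat.card_mono (Set.finite_range F) h1).trans (Finite.card_range_le F)
  rw [Nat.card_eq_fintype_card, h2] at h3
  have h4 := (mxcyc_deg K hi).trans (Nat.mul_le_mul_left _ h3)
  rw [← hn, ← cyclotomic_eq_minpoly_rat hζ h0, natDegree_cyclotomic,
    Nat.totient_prime_pow_succ Nat.prime_two] at h4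
  have h5 : n < 2 ^ n := Nat.lt_two_pow_self
  omega

theorem igData {Γ ν : Type} [Group Γ] [Fintype ν] [DecidableEq ν]
    (r : Γ →* GL ν ℤ_[2]) (χ : Γ →* ℤ_[2]ˣ)
    (hinf : ∀ U : Subgroup Γ, U.FiniteIndex → (χ '' U).Infinite)
    (E : Matrix ν ν ℤ_[2]) (hE : E.transpose = -E)
    (hW : ∀ σ, (r σ : Matrix ν ν ℤ_[2]).transpose * E * r σ = (χ σ : ℤ_[2]) • E)
    (hI : Igusa r χ E) : IgData ((Units.coeHom _).comp r) E χ ⊤ := by
  let r' : Γ →* Matrix ν ν ℤ_[2] := (Units.coeHom _).comp r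
  have hrr : ∀ σ, r' σ = r σ := fun σ => rfl
  have hunit : ∀ y : ℤ_[2], IsUnit y ↔ red y ≠ 0 := fun y => by
    rw [Ne, red_eq_zero_iff, PadicInt.isUnit_iff]
    have h1 := PadicInt.norm_lt_one_iff_dvd y
    have h2 := PadicInt.norm_le_one y
    constructor
    · rintro h ⟨z, hz⟩
      exact absurd (h1.2 ⟨z, hz⟩) (by rw [h]; exact lt_irrefl _)
    · intro h
      exact le_antisymm h2 (not_lt.1 fun h3 => h (h1.1 h3))
  have key : ∀ y, IgusaAt r χ E y → ∃ (n : ℕ) (Y : Matrix ν ν (ZMod 2)), 1 ≤ n ∧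
      Lev r' ⊤ n Y ∧ Yᵀ * E.map red + E.map red * Y = 0 ∧
        (red ∘ y) ⬝ᵥ (E.map red * Y) *ᵥ (red ∘ y) ≠ 0 := by
    rintro y ⟨σ, n, X, hn, h1, ⟨c, hc⟩, h3⟩
    refine ⟨n, X.map red, hn, ⟨σ, Subgroup.mem_top σ, X, by rw [hrr, h1], rfl⟩, ?_, ?_⟩
    · have h4 := hW σ
      rw [h1, eq_add_of_sub_eq hc] at h4
      have h5 : (2 : ℤ_[2]) ^ n • (Xᵀ * E + E * X + (2 : ℤ_[2]) ^ n • (Xᵀ * E * X)) =
          (2 : ℤ_[2]) ^ n • ((2 * c) • E) := by
        rw [transpose_add, transpose_one, transpose_smul] at h4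
        simp only [add_mul, mul_add, one_mul, mul_one, smul_mul_assoc, mul_smul_comm, add_smul,
          one_smul, smul_add] at h4 ⊢
        rw [smul_smul _ (2 * c), ← mul_assoc, ← pow_succ]
        linear_combination (norm := abel) h4
      have h6 := smul_right_injective _ (pow_ne_zero n (two_ne_zero (α := ℤ_[2]))) h5
      have h7 := congrArg (fun M : Matrix ν ν ℤ_[2] => M.map red) h6
      rw [lev_map_pow hn, lev_map_add, Matrix.map_mul, Matrix.map_mul, transpose_map] at h7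
      rw [h7]
      ext a b
      exact (red_eq_zero_iff _).2 ⟨c * E a b, by simp [mul_assoc]⟩
    · have h4 := (hunit _).1 h3
      rw [mulVec_mulVec, RingHom.map_dotProduct] at h4
      have e2 : red ∘ ((E * X) *ᵥ y) = (E.map red * X.map red) *ᵥ (red ∘ y) := by
        ext a
        rw [Function.comp_apply, RingHom.map_mulVec, Matrix.map_mul]
      rwa [e2] at h4
  have hmult : ∀ σ, (r' σ)ᵀ * E * r' σ = (χ σ : ℤ_[2]) • E := fun σ => by rw [hrr, hW]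
  have hd : IgData r' E χ ⊤ := by
    refine ⟨inferInstance, hE, fun σ _ => hmult σ, hinf, fun x hx => ?_⟩
    have hinv : ∀ σ, ((r' σ).map red)ᵀ * E.map red * (r' σ).map red = E.map red := fun σ => by
      have h1 : red (χ σ : ℤ_[2]) = 1 :=
        (by decide : ∀ e : ZMod 2, e ≠ 0 → e = 1) _ ((hunit _).1 (χ σ).isUnit)
      rw [zar_map red (hmult σ), h1, one_smul]
    refine ig_of_sub ⊤ hE hinv (fun N hN h0 => ?_) x hx
    rcases hI N (fun σ => by have := hN σ; rwa [hrr] at this) h0 with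
      ⟨y, hyN, hy⟩ | ⟨⟨σ, h1, c, hc⟩, h2⟩
    · exact ⟨_, hyN, key y hy⟩
    · refine ig_of_nonOrth hE hinv (σ := σ) (c := c) (by rw [hrr]; exact h1)
        (by rw [hmult, eq_add_of_sub_eq' hc]) fun M hM => ?_
      simp only [hrr]
      exact h2 M hM
  exact hd

end MG.G
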