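import Pool.Agent.Lib.MP_33b3f9_ag.IgLef
import Pool.Agent.Lib.MP_33b3f9_ag.IgMT

/-!
The group theoretic theorem for a power of a representation.
-/

set_option autoImplicit false

noncomputable section

namespace MG.G

open Matrix Pool.Agent.Lib.MP_33b3f9_ag

variable {ν κ μ : Type} [Fintype ν] [DecidableEq ν] [Fintype κ] [DecidableEq κ] [Fintype μ]
  [DecidableEq μ]

/-- A decomposition of `R ^ ν` as a sum of copies of `R ^ κ`. -/
structure Dec {R : Type*} [CommRing R] (P : μ → Matrix ν κ R) (Q : μ → Matrix κ ν R) : Prop where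
  qp : ∀ i j, Q i * P j = if i = j then 1 else 0
  pq : ∑ i, P i * Q i = 1

section

variable {R : Type*} [CommRing R] {P : μ → Matrix ν κ R} {Q : μ → Matrix κ ν R}

theorem Dec.map (h : Dec P Q) {S : Type*} [CommRing S] (f : R →+* S) :
    Dec (fun i => (P i).map f) fun i => (Q i).map f := by
  refine ⟨fun i j => ?_, ?_⟩
  · rw [← Matrix.map_mul, h.qp]
    split_ifs
    · exact Matrix.map_one _ f.map_zero f.map_one
    · exact Matrix.map_zero _ f.map_zero
  · have h1 := congrArg f.mapMatrix h.pq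
    rw [map_sum, map_one] at h1
    simpa only [RingHom.mapMatrix_apply, Matrix.map_mul] using h1

theorem Dec.one (h : Dec P Q) (i : μ) : Q i * P i = 1 := by rw [h.qp, if_pos rfl]

theorem Dec.sum (h : Dec P Q) (i : μ) {α : Type} (X : μ → Matrix κ α R) :
    Q i * ∑ j, P j * X j = X i := by
  rw [Matrix.mul_sum, Finset.sum_eq_single i]
  · rw [← Matrix.mul_assoc, h.one, Matrix.one_mul]
  · intro j _ hj
    rw [← Matrix.mul_assoc, h.qp, if_neg hj.symm, Matrix.zero_mul]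
  · exact fun h0 => absurd (Finset.mem_univ i) h0

theorem Dec.eq (h : Dec P Q) {g : Matrix ν ν R} {x : Matrix κ κ R} (e : ∀ i, g * P i = P i * x) :
    g = ∑ i, P i * (x * Q i) := by
  conv_lhs => rw [← Matrix.mul_one g, ← h.pq, Matrix.mul_sum]
  exact Finset.sum_congr rfl fun i _ => by rw [← Matrix.mul_assoc, e, Matrix.mul_assoc]

theorem Dec.left (h : Dec P Q) {g : Matrix ν ν R} {x : Matrix κ κ R}
    (e : ∀ i, g * P i = P i * x) (i : μ) : Q i * g = x * Q i := by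
  rw [h.eq e, h.sum]

/-- The orthogonal sum of copies of a form. -/
def form (Q : μ → Matrix κ ν R) (E : Matrix κ κ R) : Matrix ν ν R := ∑ i, (Q i)ᵀ * E * Q i

omit [DecidableEq μ] [DecidableEq κ] [DecidableEq ν] [Fintype ν] in
theorem form_map (Q : μ → Matrix κ ν R) (E : Matrix κ κ R) {S : Type*} [CommRing S]
    (f : R →+* S) : (form Q E).map f = form (fun i => (Q i).map f) (E.map f) := by
  ext a b
  simp [form, Matrix.sum_apply, Matrix.mul_apply]

theorem Dec.form_sim (h : Dec P Q) {g : Matrix ν ν R} {x E : Matrix κ κ R} {c : R}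
    (e : ∀ i, g * P i = P i * x) (hx : xᵀ * E * x = c • E) :
    gᵀ * form Q E * g = c • form Q E := by
  rw [form, Matrix.mul_sum, Matrix.sum_mul, Finset.smul_sum]
  refine Finset.sum_congr rfl fun i _ => ?_
  calc _ = (Q i * g)ᵀ * E * (Q i * g) := by simp only [transpose_mul, Matrix.mul_assoc]
    _ = (Q i)ᵀ * (xᵀ * E * x) * Q i := by
      rw [h.left e]
      simp only [transpose_mul, Matrix.mul_assoc]
    _ = _ := by rw [hx, Matrix.mul_smul, Matrix.smul_mul]

theorem Dec.form_mul (h : Dec P Q) (E : Matrix κ κ R) (j : μ) : form Q E * P j = (Q j)ᵀ * E := by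
  rw [form, Matrix.sum_mul, Finset.sum_eq_single j]
  · rw [Matrix.mul_assoc, h.one, Matrix.mul_one]
  · intro i _ hi
    rw [Matrix.mul_assoc, h.qp, if_neg hi, Matrix.mul_zero]
  · exact fun h0 => absurd (Finset.mem_univ j) h0

theorem Dec.form_res (h : Dec P Q) (E : Matrix κ κ R) (j : μ) :
    (P j)ᵀ * form Q E * P j = E := by
  rw [Matrix.mul_assoc, h.form_mul, ← Matrix.mul_assoc, ← transpose_mul, h.one, transpose_one,
    Matrix.one_mul]

theorem Dec.form_inv (h : Dec P Q) {E F : Matrix κ κ R} (e : E * F = 1) :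
    form Q E * ∑ j, P j * (F * (P j)ᵀ) = 1 := by
  rw [Matrix.mul_sum, ← transpose_one, ← h.pq, transpose_sum]
  refine Finset.sum_congr rfl fun j _ => ?_
  rw [← Matrix.mul_assoc, h.form_mul, Matrix.mul_assoc, ← Matrix.mul_assoc E, e, Matrix.one_mul,
    transpose_mul]

theorem Dec.form_down (h : Dec P Q) {g : Matrix ν ν R} {x E : Matrix κ κ R} {c : R} (o : μ)
    (e : g * P o = P o * x) (hg : gᵀ * form Q E * g = c • form Q E) : xᵀ * E * x = c • E := by
  calc _ = xᵀ * ((P o)ᵀ * form Q E * P o) * x := by rw [h.form_res]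
    _ = (P o * x)ᵀ * form Q E * (P o * x) := by simp only [transpose_mul, Matrix.mul_assoc]
    _ = (P o)ᵀ * (gᵀ * form Q E * g) * P o := by
      rw [← e]
      simp only [transpose_mul, Matrix.mul_assoc]
    _ = _ := by rw [hg, Matrix.mul_smul, Matrix.smul_mul, h.form_res]

theorem exists_dec (e : (μ → κ → R) ≃ₗ[R] (ν → R)) :
    ∃ (P : μ → Matrix ν κ R) (Q : μ → Matrix κ ν R), Dec P Q ∧ ∀ (g : Matrix ν ν R)
      (x : Matrix κ κ R), (∀ v, e (fun i => x *ᵥ v i) = g *ᵥ e v) → ∀ i, g * P i = P i * x := by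
  have ext : ∀ {α β : Type} [Fintype β] [DecidableEq β] {M N : Matrix α β R},
      (∀ v, M *ᵥ v = N *ᵥ v) → M = N := fun h => by
    ext a b
    simpa using congrFun (h (Pi.single b 1)) a
  refine ⟨fun i => LinearMap.toMatrix' (e.toLinearMap ∘ₗ LinearMap.single R (fun _ : μ => κ → R) i),
    fun i => LinearMap.toMatrix' (LinearMap.proj i ∘ₗ e.symm.toLinearMap),
    ⟨fun i j => ext fun v => ?_, ext fun v => ?_⟩, fun g x h i => ext fun v => ?_⟩
  · rw [← mulVec_mulVec, LinearMap.toMatrix'_mulVec, LinearMap.toMatrix'_mulVec]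
    split_ifs with h
    · simp [h]
    · simp [h]
  · simp only [sum_mulVec, ← mulVec_mulVec, LinearMap.toMatrix'_mulVec, one_mulVec]
    simp [← map_sum, Finset.univ_sum_single]
  · simp only [← mulVec_mulVec, LinearMap.toMatrix'_mulVec, LinearMap.comp_apply,
      LinearEquiv.coe_coe, LinearMap.coe_single, ← h]
    congr 1
    funext j
    by_cases hj : j = i
    · simp [hj]
    · simp [hj]

end

/-- The substitution `x ↦ ∑ P x Q` in a polynomial in the matrix entries. -/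
def sb {F : Type*} [Field F] (P : μ → Matrix ν κ F) (Q : μ → Matrix κ ν F)
    (f : MvPolynomial (ν × ν) F) : MvPolynomial (κ × κ) F :=
  MvPolynomial.aeval (fun p : ν × ν => (∑ i, (P i).map (MvPolynomial.C (σ := κ × κ)) *
    ((Matrix.of fun s t => MvPolynomial.X (s, t) : Matrix κ κ (MvPolynomial (κ × κ) F)) *
      (Q i).map (MvPolynomial.C (σ := κ × κ)))) p.1 p.2) f

omit [Fintype ν] [DecidableEq ν] [DecidableEq κ] [DecidableEq μ] in
theorem evalM_sb {F Ω : Type*} [Field F] [Field Ω] [Algebra F Ω] (P : μ → Matrix ν κ F)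
    (Q : μ → Matrix κ ν F) (x : Matrix κ κ Ω) (f : MvPolynomial (ν × ν) F) :
    evalM x (sb P Q f) =
      evalM (∑ i, (P i).map (algebraMap F Ω) * (x * (Q i).map (algebraMap F Ω))) f := by
  unfold evalM sb
  rw [← AlgHom.comp_apply, MvPolynomial.comp_aeval]
  congr 2
  funext p
  simp [Matrix.mul_apply, Matrix.sum_apply]

theorem pow_main {Γ : Type*} [Group Γ] [Nonempty ν] {s : Γ →* Matrix κ κ ℤ_[2]}
    {E : Matrix κ κ ℤ_[2]} {χ : Γ →* ℤ_[2]ˣ} (h : IgData s E χ ⊤) {ρ' : Γ → GL κ ℚ_[2]}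
    (hρ' : ∀ σ, (ρ' σ : Matrix κ κ ℚ_[2]) = (s σ).map ((↑) : ℤ_[2] → ℚ_[2]))
    (R : Γ →* Matrix ν ν ℚ_[2]) {ρ : Γ → GL ν ℚ_[2]} (hρ : ∀ σ, (ρ σ : Matrix ν ν ℚ_[2]) = R σ)
    {P : μ → Matrix ν κ ℚ_[2]} {Q : μ → Matrix κ ν ℚ_[2]} (hD : Dec P Q)
    (he : ∀ σ i, (ρ σ : Matrix ν ν ℚ_[2]) * P i = P i * (ρ' σ : Matrix κ κ ℚ_[2]))
    {I : Matrix ν ν ℝ} (hI : Polarizable I) (hT : EndTate ρ I) (U : Subgroup Γ) [U.FiniteIndex]
    (hsub : ρ '' U ⊆ zeroSet ℚ_[2] (mtEqns I)) : zcl Qb (ρ '' U) = zeroSet Qb (mtEqns I) := by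
  obtain ⟨⟨o⟩, hκ⟩ : Nonempty μ ∧ Nonempty κ := by
    by_contra h0
    have h1 := hD.pq
    rw [Finset.sum_eq_zero] at h1
    · exact zero_ne_one h1
    intro i _
    have : IsEmpty κ := not_nonempty_iff.1 fun h2 => h0 ⟨⟨i⟩, h2⟩
    ext a b
    simp [Matrix.mul_apply]
  obtain ⟨U₀, -, hfin, hU₀⟩ := h.zcl_eq_lef hρ'
  have hdet : (E.map ((↑) : ℤ_[2] → ℚ_[2])).det ≠ 0 := by
    have := PadicInt.Coe.ringHom.map_det E
    rw [RingHom.mapMatrix_apply] at this
    intro h0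
    exact h.det (Subtype.val_injective (this.trans h0))
  have hle : ρ '' (U ⊓ U₀ : Subgroup Γ) ⊆ ρ '' U :=
    Set.image_mono (SetLike.coe_subset_coe.2 inf_le_left)
  refine Set.Subset.antisymm (MT_sub _ _ hsub) fun g hg => ?_
  obtain ⟨⟨m, hm⟩, hc⟩ := mt_subset_lef R hρ (E := form Q (E.map ((↑) : ℤ_[2] → ℚ_[2])))
    (isUnit_det_of_right_inverse (hD.form_inv (mul_nonsing_inv _ hdet.isUnit))).ne_zero hI hT
    (U ⊓ U₀) (fun σ _ => ⟨_, by
      rw [← hρ]
      refine hD.form_sim (he σ) ?_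
      rw [hρ']
      exact zar_map PadicInt.Coe.ringHom (h.mult σ (Subgroup.mem_top σ))⟩) (hle.trans hsub) hg
  have hD' := hD.map (algebraMap ℚ_[2] Qb)
  have k : ∀ i j, ∀ C ∈ commt (ρ' '' (U ⊓ U₀ : Subgroup Γ)),
      (P i).map (algebraMap ℚ_[2] Qb) * C.map (algebraMap ℚ_[2] Qb) *
        (Q j).map (algebraMap ℚ_[2] Qb) * (g : Matrix ν ν Qb) =
      (g : Matrix ν ν Qb) * ((P i).map (algebraMap ℚ_[2] Qb) * C.map (algebraMap ℚ_[2] Qb) *
        (Q j).map (algebraMap ℚ_[2] Qb)) := fun i j C hC => by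
    rw [← Matrix.map_mul, ← Matrix.map_mul]
    refine hc _ ?_
    rintro _ ⟨σ, hσ, rfl⟩
    rw [Matrix.mul_assoc, hD.left (he σ), ← Matrix.mul_assoc, Matrix.mul_assoc (P i),
      hC _ ⟨σ, hσ, rfl⟩, ← Matrix.mul_assoc, ← he]
    simp only [Matrix.mul_assoc]
  rw [form_map] at hm
  have hs := evalM_sb (Ω := Qb) P Q
  generalize hp : (fun i => (P i).map (algebraMap ℚ_[2] Qb)) = p at hD'
  generalize hq : (fun i => (Q i).map (algebraMap ℚ_[2] Qb)) = q at hD' hm
  simp only [fun i => congrFun hp i, fun i => congrFun hq i] at k hs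
  have k1 : ∀ i, (g : Matrix ν ν Qb) * p i = p i * (q o * (g : Matrix ν ν Qb) * p o) := fun i => by
    have h1 := congrArg (· * p o) (k i o 1 fun t _ => by rw [Matrix.one_mul, Matrix.mul_one])
    simp only [Matrix.map_one _ (map_zero _) (map_one _), Matrix.mul_one, Matrix.mul_assoc,
      hD'.one] at h1
    rw [← h1, Matrix.mul_assoc]
  have e1 : q o * (g : Matrix ν ν Qb) * p o * (q o * ((g⁻¹ : GL ν Qb) : Matrix ν ν Qb) * p o) =
      1 := by
    rw [← Matrix.mul_assoc, ← Matrix.mul_assoc, ← hD'.left k1, Matrix.mul_assoc (q o),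
      Units.mul_inv, Matrix.mul_one, hD'.one]
  have h2 : (⟨_, _, e1, mul_eq_one_comm.1 e1⟩ : GL κ Qb) ∈
      zcl Qb (ρ' '' (U ⊓ U₀ : Subgroup Γ)) := by
    rw [hU₀ _ inf_le_right inferInstance]
    refine ⟨⟨m, hD'.form_down o (k1 o) hm⟩, fun C hC => ?_⟩
    have h3 := congrArg (fun M => q o * M * p o) (k o o C hC)
    simp only [Matrix.mul_assoc, hD'.one, Matrix.mul_one] at h3 ⊢
    rw [← h3, ← Matrix.mul_assoc (q o) (p o), hD'.one, Matrix.one_mul]
  intro f hf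
  rw [hD'.eq k1, ← hs]
  refine h2 _ ?_
  rintro _ ⟨σ, hσ, rfl⟩
  rw [evalM_sb]
  have h4 := hf _ ⟨σ, hσ.1, rfl⟩
  rwa [hD.eq (he σ)] at h4

end MG.G
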