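import Pool.Agent.Lib.MP_33b3f9_ag.MG.G.End
import Pool.Agent.Lib.MP_33b3f9_ag.MG.G.Ig
import Pool.Agent.Lib.MP_33b3f9_ag.MG.G.Pow
import Pool.Agent.Lib.MP_33b3f9_ag.MG.Un.Main

/-!
The Igusa criterion for uniformised abelian varieties over number fields.
-/

set_option autoImplicit false

noncomputable section

namespace MG.G

open Matrix MvPolynomial M4 M4.Un MG.Br MG.Un Pool.Agent.Lib.MP_33b3f9_ag
open Pool.Agent.MG (Unif ActsU End0)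

theorem pol {κ : Type} [Fintype κ] [DecidableEq κ] {τ : Matrix κ κ ℂ} (hτ : InH τ)
    {I : Matrix (κ ⊕ κ) (κ ⊕ κ) ℝ} {A B : Matrix (κ ⊕ κ) (κ ⊕ κ) ℚ} (e1 : A * B = 1)
    (hI : cst τ * A.map (Rat.cast : ℚ → ℝ) = A.map (Rat.cast : ℚ → ℝ) * I) : Polarizable I := by
  have r1 := conj_one ℝ e1
  have r2 := conj_one ℝ (mul_eq_one_comm.1 e1)
  have hJ : (J κ ℚ).map (Rat.cast : ℚ → ℝ) = J κ ℝ := Matrix.map_J κ (Rat.castHom ℝ)
  have hq := M8.E3.cst_sq hτ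
  have hs : (cst τ)ᵀ * J κ ℝ = -(J κ ℝ * cst τ) := eq_neg_of_add_eq_zero_left (M8.E3.cst_sp hτ)
  have e : (Aᵀ * J κ ℚ * A).map (Rat.cast : ℚ → ℝ) =
      (A.map (Rat.cast : ℚ → ℝ))ᵀ * J κ ℝ * A.map (Rat.cast : ℚ → ℝ) := by
    rw [Br.conj_mul, Br.conj_mul, hJ, transpose_map]
  refine ⟨?_, Aᵀ * J κ ℚ * A, ?_, ?_, ?_⟩
  · rw [← (IsUnit.of_mul_eq_one _ r1).mul_right_inj, ← mul_assoc, ← hI, mul_assoc, ← hI,
      ← mul_assoc, hq, neg_mul, mul_neg, one_mul, mul_one]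
  · rw [transpose_mul, transpose_mul, transpose_transpose, J_transpose, neg_mul, mul_neg,
      mul_assoc]
  · rw [e, ← mul_assoc, ← mul_assoc, ← transpose_mul, ← hI, mul_assoc, ← hI, transpose_mul,
      mul_assoc _ (cst τ)ᵀ, hs, mul_neg, neg_mul, ← mul_assoc, mul_assoc _ _ (cst τ),
      mul_assoc _ _ (cst τ), hq, mul_neg, mul_neg, neg_mul, neg_neg, mul_one]
  · obtain ⟨g, hg, e2⟩ := FP.Pm_fac hτ
    have e3 : (Aᵀ * J κ ℚ * A).map (Rat.cast : ℚ → ℝ) * I =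
        (g * A.map (Rat.cast : ℚ → ℝ))ᴴ * (g * A.map (Rat.cast : ℚ → ℝ)) := by
      rw [e, mul_assoc, ← hI, conjTranspose_eq_transpose_of_trivial, transpose_mul, mul_assoc,
        mul_assoc, ← mul_assoc (J κ ℝ), ← mul_assoc gᵀ, ← e2]
      rfl
    rw [e3]
    refine PosDef.conjTranspose_mul_self _ (mulVec_injective_of_isUnit ?_)
    exact ((isUnit_iff_isUnit_det g).2 (SymplecticGroup.symplectic_det hg)).mul
      (IsUnit.of_mul_eq_one _ r1)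

/-- The theorem on endomorphisms passes along an isogeny. -/
theorem endTate_of [Dim] {τ : Mat} {K K' : IntermediateField ℚ ℂ} (hK : K ≤ K') {r' : Rep K'}
    (hA : AV τ K' r') {I : Matrix ν ν ℝ} {A B : Matrix ν ν ℚ} (e1 : A * B = 1)
    (hI : cst τ * A.map (Rat.cast : ℚ → ℝ) = A.map (Rat.cast : ℚ → ℝ) * I)
    (hS : ∀ d : Matrix ν ν ℚ, d.map (Rat.cast : ℚ → ℝ) * I = I * d.map (Rat.cast : ℚ → ℝ) →
      d ≠ 0 → IsUnit d)
    {ρ : (ℂ ≃ₐ[K] ℂ) → GL ν ℚ_[2]} (U : Subgroup (ℂ ≃ₐ[K] ℂ)) [U.FiniteIndex]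
    (hρ : ∀ σ, res hK σ ∈ U → rq r' 2 σ * A.map (Rat.cast : ℚ → ℚ_[2]) =
      A.map (Rat.cast : ℚ → ℚ_[2]) * ρ (res hK σ))
    (h : ρ '' U ⊆ zeroSet ℚ_[2] (mtEqns I)) : EndTate ρ I := by
  intro V hV C hC
  have e2 := mul_eq_one_comm.1 e1
  have r1 := conj_one ℝ e1
  have r2 := conj_one ℝ e2
  have q1 := conj_one ℚ_[2] e1
  have q2 := conj_one ℚ_[2] e2
  have hE : ∀ d : Matrix ν ν ℚ, F.EndQ τ d → (B * d * A).map (Rat.cast : ℚ → ℝ) * I =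
      I * (B * d * A).map (Rat.cast : ℚ → ℝ) := fun d hd => by
    rw [Br.conj_mul, Br.conj_mul]
    exact (conj_comm r1 r2 hI).2 hd
  have e3 : B.map (Rat.cast : ℚ → ℚ_[2]) * (A.map (Rat.cast : ℚ → ℚ_[2]) * C *
      B.map (Rat.cast : ℚ → ℚ_[2])) * A.map (Rat.cast : ℚ → ℚ_[2]) = C := by
    rw [← mul_assoc, ← mul_assoc, q2, one_mul, mul_assoc, q2, mul_one]
  have h1 := F.G.endTate hA (fun d hd h0 => by
      have e4 : d = A * (B * d * A) * B := by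
        rw [← mul_assoc, ← mul_assoc, e1, one_mul, mul_assoc, e1, mul_one]
      have h2 := hS _ (hE d hd) fun h3 => h0 (by rw [e4, h3, mul_zero, zero_mul])
      rw [e4]
      exact ((IsUnit.of_mul_eq_one _ e1).mul h2).mul (IsUnit.of_mul_eq_one _ e2))
    ((V ⊓ U).comap (res hK)) (fin_comap hK _) (fun d hd σ hσ => by
      refine (conj_comm q1 q2 (hρ σ hσ.2)).1 ?_
      rw [← Br.conj_mul, ← Br.conj_mul]
      exact (igMTa_iff _ _).1 fun P hP => h ⟨_, hσ.2, rfl⟩ P (igMTa_subset (hE d hd) hP))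
    (C := A.map (Rat.cast : ℚ → ℚ_[2]) * C * B.map (Rat.cast : ℚ → ℚ_[2])) fun σ hσ => by
      refine (conj_comm q1 q2 (hρ σ hσ.2)).1 ?_
      rw [e3]
      exact hC _ ⟨_, hσ.1, rfl⟩
  rw [← e3]
  generalize A.map (Rat.cast : ℚ → ℚ_[2]) * C * B.map (Rat.cast : ℚ → ℚ_[2]) = X at h1
  induction h1 using Submodule.span_induction with
  | mem X hX =>
    obtain ⟨d, hd, rfl⟩ := hX
    exact Submodule.subset_span ⟨B * d * A, hE d hd, by rw [Br.conj_mul, Br.conj_mul]⟩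
  | zero => rw [mul_zero, zero_mul]; exact zero_mem _
  | add x y _ _ hx hy => rw [mul_add, add_mul]; exact add_mem hx hy
  | smul a x _ hx => rw [mul_smul_comm, smul_mul_assoc]; exact Submodule.smul_mem _ _ hx

variable {K : IntermediateField ℚ ℂ} {α : Type} [Fintype α] {J : Set (MvPolynomial α K)} {g : ℕ}
  {p : (Fin g ⊕ Fin g → ℝ) ≃ₗ[ℝ] (Fin g → ℂ)} {u : (Fin g → ℂ) → α → ℂ}

theorem main [FiniteDimensional ℚ K] (hg : 0 < g) (hA : Unif J p u)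
    {I : Matrix (Fin g ⊕ Fin g) (Fin g ⊕ Fin g) ℝ} (hI : ∀ x, p (I *ᵥ x) = Complex.I • p x)
    (r : (ℂ ≃ₐ[K] ℂ) →* GL (Fin g ⊕ Fin g) ℤ_[2]) (hr : ∀ σ : ℂ ≃ₐ[K] ℂ, ActsU p u σ (r σ))
    (hS : ∀ d ∈ End0 I, d ≠ 0 → IsUnit d) {κ : Type} [Fintype κ] [DecidableEq κ]
    (s : (ℂ ≃ₐ[K] ℂ) →* GL κ ℤ_[2]) {m : ℕ}
    (ε : (Fin m → κ → ℚ_[2]) ≃ₗ[ℚ_[2]] (Fin g ⊕ Fin g → ℚ_[2]))
    (hε : ∀ σ x, ε (fun i => (Pool.Agent.Lib.MP_33b3f9_ag.toQ (s σ)).val *ᵥ x i) =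
      (Pool.Agent.Lib.MP_33b3f9_ag.toQ (r σ)).val *ᵥ ε x)
    (E : Matrix κ κ ℤ_[2]) (hE : Eᵀ = -E)
    (hW : ∀ σ, (s σ).valᵀ * E * (s σ).val = (cyclo σ).val • E) (hT : Igusa s cyclo E)
    (U : Subgroup (ℂ ≃ₐ[K] ℂ)) (hU : U.FiniteIndex)
    (h : (fun σ => Pool.Agent.Lib.MP_33b3f9_ag.toQ (r σ)) '' U ⊆ zeroSet ℚ_[2] (mtEqns I)) :
    zcl (AlgebraicClosure ℚ_[2]) ((fun σ => Pool.Agent.Lib.MP_33b3f9_ag.toQ (r σ)) '' U) =
      zeroSet (AlgebraicClosure ℚ_[2]) (mtEqns I) := by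
  have : Nonempty (Fin g) := ⟨⟨0, hg⟩⟩
  have hu : ∀ a, Differentiable ℂ fun z => u z a := differentiable_pi.1 hA.hol
  obtain ⟨τ, G, k, v, γ, χ, hτ, hG, hGI, hk, hγ, hvu, hv, hχ, hUv⟩ :=
    RF' u hA.hol (m_ne hA) p hI (m_per hA) fun z c e =>
      ((hA.inj z 0).1 ⟨c, e⟩).imp fun n hn => (sub_zero z).symm.trans hn
  obtain ⟨A, B, e1, eA⟩ := conj_inv hG
  have hGI' := hGI
  rw [mz, ← eA] at hGI'
  let c : (ℂ ≃ₐ[K] ℂ) →* ℤ_[2]ˣ :=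
    (cyclotomicCharacter ℂ 2).comp (MulSemiringAction.toRingAut (ℂ ≃ₐ[K] ℂ) ℂ)
  have hL := igData s c (cyc_inf K c fun σ n z hz => cyclotomicCharacter.spec 2
    (MulSemiringAction.toRingAut (ℂ ≃ₐ[K] ℂ) ℂ σ) z hz) E hE hW hT
  obtain ⟨P, Q, hD, he⟩ := exists_dec ε
  refine pow_main hL (ρ' := fun σ => Pool.Agent.Lib.MP_33b3f9_ag.toQ (s σ)) (fun _ => rfl)
    ((PadicInt.Coe.ringHom (p := 2)).mapMatrix.toMonoidHom.comp ((Units.coeHom _).comp r))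
    (fun _ => rfl) hD (fun σ => he _ _ (hε σ)) (pol hτ e1 hGI') ?_ U h
  have hrat := rational u hu (m_ne hA) p _ (m_img hA) hA.inj (m_sub hA)
  let : Dim := ⟨Fin g, inferInstance, inferInstance, inferInstance⟩
  obtain ⟨U₁, hU₁, hR⟩ := descend hτ K u hu (m_ne hA) p hI hG hGI hk v γ hγ hvu hv χ hχ hUv
    (m_gr hA) (hrat k)
  obtain ⟨K', hK, hfin, hK'⟩ := exists_field hτ U₁ fun σ hσ => by
    simpa using hR σ hσ 0 0 (m_gr hA σ).zero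
  obtain ⟨r', hr', hu'⟩ := Gal.exists_rep hτ hK'
  refine endTate_of hK (r' := r') ⟨hτ, hfin, hK', hr'⟩ e1 hGI' hS (U ⊓ U₁) (fun σ hσ => ?_)
    ((Set.image_mono (SetLike.coe_subset_coe.2 inf_le_left)).trans h)
  have e : ∀ (n : ℕ) {κ : Type} (x : κ → ℤ),
      (fun i => (x i : ℝ) / ((2 : ℕ) : ℝ) ^ n) = M4.Kz.rq (2 ^ n) x := fun n _ x => by
    funext i
    simp [M4.Kz.rq, rz, div_eq_inv_mul]
  have h1 : Ta (fun x y => ∃ c : ℂ, ∀ a, res hK σ (u (p x) a) = c * u (p y) a)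
      (r (res hK σ) : Matrix _ _ ℤ_[2]) := fun n x y hxy => by
    rw [← e, ← e]
    exact hr _ n x y hxy
  have h2 := h1.inter (R' := Gal.Rl τ σ.toRingEquiv) (fun x y y' a b => a.unique hτ b)
    (hR _ hσ.2) ((hu' 2 σ _).2 rfl)
  have h3 := Matrix.map_mul.symm.trans
    ((congrArg (fun x => x.map (PadicInt.Coe.ringHom (p := 2))) h2).trans Matrix.map_mul)
  have h4 : (G.map (Int.cast : ℤ → ℤ_[2])).map (PadicInt.Coe.ringHom (p := 2)) =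
      A.map (Rat.cast : ℚ → ℚ_[2]) := by
    ext i j
    have h5 : A i j = G i j := by
      have := congrFun (congrFun eA i) j
      simp only [map_apply] at this
      exact_mod_cast this
    simp [h5]
  rw [h4] at h3
  exact h3

end MG.G
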