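import Pool.Agent.Lib.MP_33b3f9_ag.MG.G.Lat

/-!
From one lattice to the next.
-/

set_option autoImplicit false

namespace MG.F.G

open Matrix Module M4 M4.F

variable [Dim] [Bs] {K : IntermediateField ℚ ℂ} {τ : Mat} {r : Rep K}
  {U : Subgroup (ℂ ≃ₐ[K] ℂ)} {N n : ℕ}
  {t : ℂ} {Λ : AddSubgroup (VQ μ)}

/-- Sums of a point of the lattice and at most `i` generators of the next lattice. -/
def SS (r : Rep K) (U : Subgroup (ℂ ≃ₐ[K] ℂ)) (N n : ℕ) : ℕ → Set (VQ μ)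
  | 0 => LL r U N n
  | i + 1 => {z | z ∈ SS r U N n i ∨ ∃ x ∈ SS r U N n i, ∃ σ ∈ U, ∃ R,
      Cong r σ (2 * n * N) R ∧ z = x + qq (2 * n) R}

/-- Induction; `LL_stab`, `cong_of_dvd`, `mv_add`, `mv_qq`, `cong_mul`. -/
theorem SS_good (i : ℕ) : Good r U N n (SS r U N n i) := by
  induction i with
  | zero =>
    refine ⟨fun x hx l hl => add_mem hx hl, fun σ hσ R hR x hx => ?_⟩
    exact LL_stab hσ (cong_of_dvd ⟨2, by ring⟩ hR) hx
  | succ i ih =>
    refine ⟨?_, ?_⟩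
    · rintro z (hz | ⟨x, hx, σ, hσ, R, hR, rfl⟩) l hl
      · exact Or.inl (ih.inv z hz l hl)
      · exact Or.inr ⟨x + l, ih.inv x hx l hl, σ, hσ, R, hR, add_right_comm _ _ _⟩
    · rintro σ' hσ' R' hR' z (hz | ⟨x, hx, σ, hσ, R, hR, rfl⟩)
      · exact Or.inl (ih.stab σ' hσ' R' hR' z hz)
      · exact Or.inr ⟨mv R' x, ih.stab σ' hσ' R' hR' x hx, σ' * σ, mul_mem hσ' hσ, R' * R,
          cong_mul hR' hR, by rw [mv_add, mv_qq]⟩

theorem SS_mono : Monotone (SS r U N n) :=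
  monotone_nat_of_le_succ fun _ _ hz => Or.inl hz

theorem lev_sum (P : Finset MZ) (h : ∀ R ∈ P, ∃ σ ∈ U, Cong r σ (2 * n * N) R) {l : VQ μ}
    (hl : l ∈ LL r U N n) : l + ∑ R ∈ P, qq (2 * n) R ∈ SS r U N n P.card := by
  classical
  induction P using Finset.induction_on with
  | empty =>
    rw [Finset.sum_empty, add_zero]
    exact hl
  | insert R P hR ih =>
    obtain ⟨σ, hσ, hc⟩ := h R (Finset.mem_insert_self _ _)
    rw [Finset.card_insert_of_notMem hR, Finset.sum_insert hR]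
    exact Or.inr ⟨_, ih fun S hS => h S (Finset.mem_insert_of_mem hS), σ, hσ, R, hc, by abel⟩

/-- `exists_cls`, `LL_sum`, induction on `P'`, `SS_mono`. -/
theorem LL_sub_SS (hn : n ≠ 0) : (LL r U N (2 * n) : Set (VQ μ)) ⊆ SS r U N n (2 ^ rk) := by
  intro x hx
  obtain ⟨P, hP, h1, h2⟩ := exists_cls (r := r) (U := U) (N := N) hn
  obtain ⟨P', hP', hl⟩ := LL_sum hn h1 h2 hx
  have h3 := lev_sum P' (fun R hR => h1 R (hP' hR)) hl
  rw [sub_add_cancel] at h3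
  exact SS_mono ((Finset.card_le_card hP').trans hP) h3

/-- `codim_union` with `P` from `exists_cls` and `T R = cr '' ext (SS i) (qq (2 * n) R)`. -/
theorem SS_step [Module.Finite ℂ (GS τ t Λ)] (hn : n ≠ 0) {ρ X : ℕ}
    (h : ∀ S, Good r U N n S → ∀ σ ∈ U, ∀ R, Cong r σ (2 * n * N) R →
      ρ * (kk τ t Λ S - kk τ t Λ (ext S (qq (2 * n) R))) ≤ X) (i : ℕ) :
    ρ * (kk τ t Λ (SS r U N n i) - kk τ t Λ (SS r U N n (i + 1))) ≤ 2 ^ rk * X := by
  obtain ⟨P, hP, h1, h2⟩ := exists_cls (r := r) (U := U) (N := N) hn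
  have h3 := codim_union (GS τ t Λ) (cr '' SS r U N n i) P
    (fun R => cr '' ext (SS r U N n i) (qq (2 * n) R))
    (fun R _ => Set.image_mono fun z hz => Or.inl hz) (S' := cr '' SS r U N n (i + 1)) (by
      rintro _ ⟨z, hz | ⟨x, hx, σ, hσ, R, hR, rfl⟩, rfl⟩
      · exact Or.inl ⟨z, hz, rfl⟩
      · obtain ⟨R', hR', hl⟩ := h2 σ hσ R hR
        exact Or.inr ⟨R', hR', _, Or.inr ⟨_, (SS_good i).inv x hx _ hl, by abel⟩, rfl⟩)
  refine (Nat.mul_le_mul_left ρ h3).trans ?_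
  rw [Finset.mul_sum]
  refine (Finset.sum_le_card_nsmul _ _ X fun R hR => ?_).trans (Nat.mul_le_mul_right X hP)
  obtain ⟨σ, hσ, hc⟩ := h1 R hR
  exact h _ (SS_good i) σ hσ R hc

/-- By induction `ρ * (kk (SS 0) - kk (SS i)) ≤ i * (2 ^ rk * X)` (`tsub_le_tsub_add_tsub`); `kk`
is antitone (`van_anti`, `Submodule.finrank_mono`). Do not let `simp` or `decide` unfold
`SS _ (2 ^ rk)`: generalize the number first. -/
theorem level [Module.Finite ℂ (GS τ t Λ)] (hn : n ≠ 0) {ρ X : ℕ}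
    (h : ∀ S, Good r U N n S → ∀ σ ∈ U, ∀ R, Cong r σ (2 * n * N) R →
      ρ * (kk τ t Λ S - kk τ t Λ (ext S (qq (2 * n) R))) ≤ X) :
    ρ * (kk τ t Λ (LL r U N n) - kk τ t Λ (LL r U N (2 * n))) ≤ 2 ^ rk * (2 ^ rk * X) := by
  have h1 : ∀ i, ρ * (kk τ t Λ (SS r U N n 0) - kk τ t Λ (SS r U N n i)) ≤ i * (2 ^ rk * X) := by
    intro i
    induction i with
    | zero => simp
    | succ i ih =>
      rw [add_one_mul]
      refine le_trans ?_ (Nat.add_le_add ih (SS_step hn h i))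
      rw [← mul_add]
      exact Nat.mul_le_mul_left ρ tsub_le_tsub_add_tsub
  have h2 := LL_sub_SS (r := r) (U := U) (N := N) hn
  have h3 := h1 (2 ^ rk)
  generalize SS r U N n (2 ^ rk) = S at h2 h3
  refine le_trans (Nat.mul_le_mul_left ρ (Nat.sub_le_sub_left ?_ _)) h3
  exact Submodule.finrank_mono (inf_le_inf_left _ (van_anti (Set.image_mono h2)))

end MG.F.G
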