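import Pool.Agent.Lib.MP_33b3f9_ag.MG.G.Step
import Pool.Agent.Lib.MP_33b3f9_ag.MG.G.Lev

/-!
The orbit of a tuple without relations spans a lattice of small index.
-/

set_option autoImplicit false

namespace MG.F.G

open Matrix Module M4 M4.F

variable [Dim] [Bs] {K : IntermediateField ℚ ℂ} {τ : Mat} {r : Rep K}

/-- A section that vanishes on all lattices of the chain is zero. -/
theorem main_zero (hτ : InH τ) (hb : ∀ M : ℚ, M ≠ 0 → Full τ (M • col 1))
    {U : Subgroup (ℂ ≃ₐ[K] ℂ)} {N M : ℕ} (hN : N ≠ 0)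
    (hM : M ≠ 0) {f : VR μ → ℂ} (hf : f ∈ HolK τ 1)
    (h : ∀ j, ∀ x ∈ LL r U N (2 ^ j * M), f (cr x) = 0) : f = 0 := by
  obtain ⟨c, -, hc⟩ := lin_of_holK hτ μ
  have hmono : Monotone fun j => LL r U N (2 ^ j * M) := monotone_nat_of_le_succ fun j => by
    have := LL_le (r := r) (U := U) hN (n := 2 ^ j * M) (by positivity)
    rwa [← mul_assoc, ← pow_succ'] at this
  refine F.fin hτ (hc 1 zero_le_one f hf) (⨆ j, LL r U N (2 ^ j * M)) (fun x hx => ?_)
    (mul_ne_zero Bs.c0 hN)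
    (le_iSup_of_le 0 (zl_LL (by positivity))) (v := (M : ℚ)⁻¹ • col 1) (fun j => ?_)
    (hb _ (inv_ne_zero (by exact_mod_cast hM)))
  · obtain ⟨j, hj⟩ := (AddSubgroup.mem_iSup_of_directed hmono.directed_le).1 hx
    exact h j x hj
  · refine AddSubgroup.mem_iSup_of_mem j ?_
    have := one_LL (r := r) (U := U) (N := N) (n := 2 ^ j * M)
    rw [qq_apply] at this
    push_cast at this
    rwa [mul_inv, mul_smul] at this

theorem core (h : AV τ K r) (hb : ∀ M : ℚ, M ≠ 0 → Full τ (M • col 1)) :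
    ∃ q : ℕ, ∀ N : ℕ, N ≠ 0 → ∀ U : Subgroup (ℂ ≃ₐ[K] ℂ), U.FiniteIndex →
      ((AA r U N).map colZ).index ≤ (U.index * (2 + Nat.log 2 N)) ^ q := by
  obtain ⟨t, D, B, β⟩ := exists_base h
  obtain ⟨A, C, hA, hC, hs⟩ := step h β
  obtain ⟨q, hE⟩ := main_pow 1 (A * (4 * (2 ^ rk * (2 ^ rk * C))))
  refine ⟨q, fun N hN U hU => ?_⟩
  have hd : 0 < U.index := Nat.pos_of_ne_zero hU.index_ne_zero
  set y := U.index * (2 + Nat.log 2 N) with hy
  have hy2 : 2 ≤ y := by
    have := Nat.mul_le_mul (Nat.succ_le_of_lt hd) (Nat.le_add_right 2 (Nat.log 2 N))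
    omega
  obtain ⟨hfin, -⟩ := GS_fin (t := t) h.inH (mul_ne_zero Bs.c0 hN)
    (zl_le_AL (r := r) (U := U) (N := N))
  refine le_trans ((index_le h.inH β.t0 hN).trans ?_) ((one_mul _).ge.trans (hE y hy2))
  set Y := 2 ^ rk * (2 ^ rk * C) * y with hY
  have hY0 : 0 < Y := by positivity
  have hM : A * (4 * Y) ≠ 0 := by positivity
  rw [show A * (4 * (2 ^ rk * (2 ^ rk * C))) * y = A * (4 * Y) by rw [hY]; ring]
  by_contra hlt
  have hmono : Monotone fun j => cr '' (LL r U N (2 ^ j * (A * (4 * Y))) : Set (VQ μ)) :=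
    monotone_nat_of_le_succ fun j => Set.image_mono (by
      have := LL_le (r := r) (U := U) hN (n := 2 ^ j * (A * (4 * Y))) (by positivity)
      rwa [← mul_assoc 2 (2 ^ j), ← pow_succ'] at this)
  obtain ⟨f, hf, hf0, hz⟩ := exists_common (GS τ t (AL r U N)) _ hmono fun j hj => hlt <|
    main_num (fun j => kk τ t (AL r U N) (LL r U N (2 ^ j * (A * (4 * Y)))))
      (by simpa using GS_rank (t := t) (r := r) (U := U) h.inH hN hM) (fun j => by
        have h1 := level (τ := τ) (t := t) (Λ := AL r U N) (r := r) (U := U) (N := N)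
          (n := 2 ^ j * (A * (4 * Y))) (by positivity) (hs N hN U hU _ (by positivity))
        rw [← mul_assoc 2 (2 ^ j), ← pow_succ'] at h1
        have h2 := (Nat.mul_le_mul_right _ (main_rho hA hY0 j)).trans h1
        refine Nat.le_of_mul_le_mul_left (le_of_eq_of_le ?_ (h2.trans_eq ?_)) hY0
        · ring
        · rw [hY]; ring) hj
  exact hf0 (main_zero h.inH hb hN hM (GS_le h.inH hf) fun j x hx => hz j _ ⟨x, hx, rfl⟩)

end MG.F.G
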